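import Pool.Agent.J6H50.RF.Stm

/-!
# RF-08: absoluteness of bounded formulas
-/

set_option autoImplicit false

namespace Pool.Agent.J6H99.RF08

open Pool.Agent.J6H50.RF Pool.Agent.NPC

variable {M : Type} {A : Str M} {ι : ℕ → M}

theorem val_emb (h : Emb A ι) (v : ℕ → ℕ) : ∀ t : Tm, t.val A (fun i => ι (v i)) = ι (t.val Nn v) := by
  intro t
  induction t with
  | var i => rfl
  | zero => exact h.zero.symm
  | suc t ih => simp only [Tm.val, ih]; exact (h.suc _).symm
  | add s t ihs iht => simp only [Tm.val, ihs, iht]; exact (h.add _ _).symm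
  | mul s t ihs iht => simp only [Tm.val, ihs, iht]; exact (h.mul _ _).symm
  | smash s t ihs iht => simp only [Tm.val, ihs, iht]; exact (h.smash _ _).symm
  | len t ih => simp only [Tm.val, ih]; exact (h.len _).symm
  | half t ih => simp only [Tm.val, ih]; exact (h.half _).symm

theorem val_upd {M : Type} (A : Str M) (i : ℕ) (x : M) (w : ℕ → M) : ∀ t : Tm, ¬ t.Occ i →
    t.val A (Function.update w i x) = t.val A w := by
  intro t
  induction t with
  | var j =>
    intro h
    have h' : i ≠ j := h
    simp [Tm.val, Function.update, Ne.symm h']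
  | zero => intro _; rfl
  | suc t ih => intro h; simp only [Tm.val]; rw [ih h]
  | add s t ihs iht =>
    intro h
    have h1 : ¬ s.Occ i := fun h' => h (Or.inl h')
    have h2 : ¬ t.Occ i := fun h' => h (Or.inr h')
    simp only [Tm.val]; rw [ihs h1, iht h2]
  | mul s t ihs iht =>
    intro h
    have h1 : ¬ s.Occ i := fun h' => h (Or.inl h')
    have h2 : ¬ t.Occ i := fun h' => h (Or.inr h')
    simp only [Tm.val]; rw [ihs h1, iht h2]
  | smash s t ihs iht =>
    intro h
    have h1 : ¬ s.Occ i := fun h' => h (Or.inl h')
    have h2 : ¬ t.Occ i := fun h' => h (Or.inr h')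
    simp only [Tm.val]; rw [ihs h1, iht h2]
  | len t ih => intro h; simp only [Tm.val]; rw [ih h]
  | half t ih => intro h; simp only [Tm.val]; rw [ih h]

theorem upd_emb (ι : ℕ → M) (v : ℕ → ℕ) (i m : ℕ) :
    Function.update (fun k => ι (v k)) i (ι m) = fun k => ι (Function.update v i m k) := by
  funext k
  by_cases hk : k = i
  · subst hk; simp
  · simp [Function.update, hk]

theorem all_emb (h : Emb A ι) (i : ℕ) (t : Tm) (ht : ¬ t.Occ i) (φ : Fm)
    (ih : ∀ v : ℕ → ℕ, φ.Sat Nn v ↔ φ.Sat A (fun i => ι (v i))) (v : ℕ → ℕ) :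
    (Fm.all i (.imp (.le (.var i) t) φ)).Sat Nn v ↔
      (Fm.all i (.imp (.le (.var i) t) φ)).Sat A (fun i => ι (v i)) := by
  constructor
  · intro hN x hx
    have h1 : A.le x (ι (t.val Nn v)) := by
      have h2 : A.le ((Tm.var i).val A (Function.update (fun k => ι (v k)) i x))
        (t.val A (Function.update (fun k => ι (v k)) i x)) := hx
      rw [val_upd A i x _ t ht, val_emb h] at h2
      simpa [Tm.val] using h2
    obtain ⟨m, rfl⟩ := h.init x _ h1
    rw [upd_emb, ← ih]
    apply hN
    show (Tm.var i).val Nn (Function.update v i m) ≤ t.val Nn (Function.update v i m)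
    rw [val_upd Nn i m _ t ht]
    have := (h.le _ _).mp h1
    simpa [Tm.val] using this
  · intro hA m hm
    rw [ih, ← upd_emb]
    apply hA
    show A.le ((Tm.var i).val A (Function.update (fun k => ι (v k)) i (ι m)))
        (t.val A (Function.update (fun k => ι (v k)) i (ι m)))
    rw [val_upd A i _ _ t ht, val_emb h]
    have h1 : (Tm.var i).val Nn (Function.update v i m) ≤ t.val Nn (Function.update v i m) := hm
    rw [val_upd Nn i m _ t ht] at h1
    have h2 : m ≤ t.val Nn v := by simpa [Tm.val] using h1
    have := (h.le _ _).mpr h2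
    simpa [Tm.val] using this

theorem fold_val (h : Emb A ι) (v : ℕ → M) : ∀ l : List Bool,
    (l.foldr (fun (b : Bool) (t : Tm) => if b then Tm.suc (.mul two t) else .mul two t)
      Tm.zero).val A v = ι (valB l) := by
  intro l
  have h2 : two.val A v = ι 2 := by
    show A.suc (A.suc A.zero) = ι 2
    rw [← h.zero, ← h.suc, ← h.suc]
  induction l with
  | nil => exact h.zero.symm
  | cons b l ih =>
    simp only [List.foldr_cons]
    cases b with
    | true =>
      simp only [if_true]
      show A.suc (A.mul (two.val A v) _) = _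
      rw [ih, h2, ← h.mul, ← h.suc]
      congr 1
      simp [valB]
      try omega
    | false =>
      simp only [Bool.false_eq_true, if_false]
      show (A.mul (two.val A v) _) = _
      rw [ih, h2, ← h.mul]
      congr 1
      simp [valB]
      try omega

theorem m08 : S_abs := by
  intro M A ι h
  refine ⟨?_, ?_⟩
  · intro b φ hφ
    induction hφ with
    | bot b => intro v; exact Iff.rfl
    | eq b s t =>
      intro v
      show s.val Nn v = t.val Nn v ↔ s.val A _ = t.val A _
      rw [val_emb h, val_emb h]
      exact ⟨fun e => by rw [e], fun e => h.inj _ _ e⟩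
    | le b s t =>
      intro v
      show s.val Nn v ≤ t.val Nn v ↔ A.le (s.val A _) (t.val A _)
      rw [val_emb h, val_emb h]
      exact (h.le _ _).symm
    | imp b _ _ ih1 ih2 =>
      intro v
      exact imp_congr (ih1 v) (ih2 v)
    | sharp b i t ht _ ih =>
      intro v
      exact all_emb h i (.len t) ht _ ih v
    | bdd i t ht _ ih =>
      intro v
      exact all_emb h i t ht _ ih v
  · intro n v
    unfold num
    rw [fold_val h, valB_bits]

end Pool.Agent.J6H99.RF08
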