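import Pool.Agent.J6H50.RF.Stm

/-!
# RF-12: the additional axioms are true
-/

set_option autoImplicit false

namespace Pool.Agent.J6H99.RF12

open Pool.Agent.J6H50.RF Pool.Agent.NPC

theorem sat_iff_mp {M : Type} (A : Str M) (φ ψ : Fm) (v : ℕ → M) (h : (Fm.iff φ ψ).Sat A v) :
    φ.Sat A v → ψ.Sat A v := by
  intro hφ
  by_contra hψ
  apply h
  intro h1 _
  exact hψ (h1 hφ)

theorem m12 : S_axN := by
  intro hdep hnum hqd hone μ hμ w hp hcond v
  obtain ⟨P, j, e, p, nl, tl, π⟩ := w
  simp only at hp hcond
  obtain ⟨-, hn, -, hpT, hpm⟩ := hnum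
  obtain ⟨-, -, hone3⟩ := hone hqd
  obtain ⟨-, -, hsz, -, -⟩ := hqd
  intro _ hind hhyp
  intro a x z u ha hx hz hu hP
  have e1 : ∀ s : ℕ, ∀ i : ℕ, ∀ w' : ℕ → ℕ, Fm.Sat Nn (.le (.len (.var i)) (num nl.length)) w' →
      w' i < 2 ^ nl.length := by
    intro s i w' h
    have h1 : (w' i).size ≤ (num nl.length).val Nn w' := h
    rw [hn] at h1
    exact Nat.size_le.mp h1
  have ha' : a < 2 ^ nl.length := by
    have := e1 0 _ _ ha
    simpa [Function.update] using this
  have hx' : x < 2 ^ nl.length := by
    have := e1 0 _ _ hx
    simpa [Function.update] using this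
  have hz' : z < 2 ^ nl.length := by
    have := e1 0 _ _ hz
    simpa [Function.update] using this
  have hu' : u < 2 ^ nl.length := by
    have := e1 0 _ _ hu
    simpa [Function.update] using this
  have hc := hcond a x z u ha' hx' hz' hu'
  set y := qd a x z u with hy
  have hysz : y.size ≤ 4 * nl.length + 9 := hsz nl.length a x z u ha' hx' hz' hu'
  have hP' := hind a x z u hP y
  have hh := hhyp y (2 ^ tl.length)
  have hle : Fm.Sat Nn (.le (pTm p (.len (.var 1))) (.len (.var 2)))
      (Function.update (Function.update v 1 y) 2 (2 ^ tl.length)) := by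
    have h1 : (pTm p (.len (.var 1))).val Nn
        (Function.update (Function.update v 1 y) 2 (2 ^ tl.length)) = pEv p y.size := by
      rw [hpT]
      have : (Tm.len (.var 1)).val Nn
        (Function.update (Function.update v 1 y) 2 (2 ^ tl.length)) = y.size := by
        simp [Tm.val, Nn, Function.update]
      rw [this]
    have h2 : (Tm.len (.var 2)).val Nn
        (Function.update (Function.update v 1 y) 2 (2 ^ tl.length)) = tl.length + 1 := by
      have : (Tm.len (.var 2)).val Nn
        (Function.update (Function.update v 1 y) 2 (2 ^ tl.length)) = (2 ^ tl.length).size := by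
        simp [Tm.val, Nn, Function.update]
      rw [this, Nat.size_pow]
    show (pTm p (.len (.var 1))).val Nn
        (Function.update (Function.update v 1 y) 2 (2 ^ tl.length)) ≤ (Tm.len (.var 2)).val Nn
        (Function.update (Function.update v 1 y) 2 (2 ^ tl.length))
    rw [h1, h2]
    have := hpm p _ _ hysz
    omega
  have hiff := hh hle
  have hmp := sat_iff_mp _ _ _ _ hiff
  have ho : (one j P).Sat Nn (Function.update (Function.update v 1 y) 2 (2 ^ tl.length)) := by
    rw [hone3]
    refine ⟨a, x, z, u, ?_, ?_⟩
    · simp [Function.update, hy]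
    · convert hP' using 1
      funext i
      simp only [Function.update]
      by_cases h0 : i = 0
      · subst h0; simp
      by_cases h1 : i = 1
      · subst h1; simp
      by_cases h2 : i = 2
      · subst h2; simp
      by_cases h3 : i = 3
      · subst h3; simp
      by_cases h4 : i = j + 4
      · subst h4; simp
      simp [h0, h1, h2, h3, h4]
  have hμ1 := hmp ho e (by
    show Tm.val Nn _ (.var 0) = (num e).val Nn _
    rw [hn]
    simp [Tm.val, Function.update])
  have hμ2 : μ.Sat Nn (asg [e, y, 2 ^ tl.length]) := by
    rw [hdep Nn μ _ (Function.update (Function.update (Function.update v 1 y) 2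
      (2 ^ tl.length)) 0 e)]
    · exact hμ1
    · intro i hi
      have := hμ i hi
      interval_cases i <;> simp [asg, Function.update]
  have hμ3 := hc hμ2
  rw [hdep Nn μ _ (asg [a, x, z])]
  · exact hμ3
  · intro i hi
    have := hμ i hi
    interval_cases i <;> simp [asg, Function.update]

end Pool.Agent.J6H99.RF12
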